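import Pool.Agent.H605Z.TP.Force

/-!
# CH does not give the transformation property for all Cohen and random algebras
(modulo a supercompact cardinal)
-/

set_option autoImplicit false

namespace Pool.Agent.Results.MP_b7a9b7_lc.AChangFails

open Cardinal Pool.Agent.H605Z.Pol Pool.Agent.H605Z.TP Pool.Agent.Helper980.G Pool.Agent.H68Z.Inj

/-- (1) If there is a supercompact cardinal, some forcing notion forces: `w = ℵ₁ ≤ κ`, `κ` is a
cardinal of countable cofinality with the same successor as before, CH, and Chang's conjecture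
`(κ⁺, κ) ↠ (ℵ₁, ℵ₀)`. (2) In ZFC: if `κ ≥ ℵ₁` has countable cofinality and
`(κ⁺, κ) ↠ (ℵ₁, ℵ₀)`, then neither `ℂ(κ)` nor `𝔹(κ)` has the transformation property. -/
theorem result :
    (∀ κ₀ : Cardinal.{0}, IsSupercompact κ₀ →
      ∃ (P : Type) (_ : Preorder P) (w κ : Cardinal.{0}), Nonempty P ∧ κ.ord.cof = ℵ₀ ∧ w ≤ κ ∧
        IsNext P ℵ₀ w ∧ IsNext P κ (Order.succ κ) ∧ ∀ p : P, p ∈ StaysCard P κ ∧
          p ∈ PowerLe P ℕ w.out ∧ p ∈ ChangF P κ.out (Order.succ κ).out w.out) ∧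
    ∀ κ : Cardinal.{0}, ℵ₁ ≤ κ → κ.ord.cof = ℵ₀ →
      Chang κ.out (Order.succ κ).out (ℵ₁ : Cardinal.{0}).out →
      ∀ I : Set (κ.out → Bool) → Prop, (I = IsMeagre ∨ I = Null κ.out) →
        (∃ P le one : ZFSet.{0}, Codes P le one I) ∧
          ∀ P le one : ZFSet.{0}, Codes P le one I → ¬ TransP P le one :=
  ⟨fun _ h => forced h, fun _ h0 h1 hC I hI => zfc h0 h1 hC I hI⟩

end Pool.Agent.Results.MP_b7a9b7_lc.AChangFails
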